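import Pool.Agent.P8H15.DS.Asm

/-!
# The zeros of the high derivatives of the Ramanujan Xi function are equally spaced, up to an exponentially small proportion

The Ramanujan Xi function is `Ξ_Δ(z) = Λ(6 + i z)`, `Λ(s) = (2π)^(-s) Γ(s) L(s, Δ)`; near height `γ` its zeros (and those of
its derivatives of low order) have the mean spacing `π / log γ`. We prove unconditionally: for all `ε, δ > 0` there are
`c, C > 0` such that for every `n ≥ 0` and `T`, at most the proportion `C exp (-c n)` of the zeros `γ` of the `n`-th
derivative of `Ξ_Δ` with real part in `(0, T]` is exceptional, and their number is at most `C exp (-c n) T log T`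
(`T ≥ 2`); a zero is exceptional if it is not real, or not simple, or if `γ ≥ exp (δ (n + 1))` and the next zero `γ + g`
of this derivative is not real, not simple or does not satisfy `|g log γ - π| ≤ ε`. This is the phenomenon
`differentiation evens out zero spacings` of Farmer and Rhoades, without any hypothesis.

Proof. At a good point (a point with few zeros of `L(s, Δ)` off the line in its neighbourhood, on the scale `n / log T`;
most points are good by the zero density theory of the project GD2 of the starting files) Cauchy's integral for the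
`n`-th derivative is the sum of the contribution `φ` of a saddle point to the right of the line and its conjugate; `φ`
rotates with almost constant speed along the line (`S_GAPD`, by an asymptotic formula for the quotient of the saddle
point integrals of consecutive orders), so that the zeros of the derivative, the zeros of the real or imaginary part of
`φ`, are almost equally spaced. The exceptional points are counted at all scales.

Authors: helper15 (local theorem, large `n`, assembly), helper87 (small `n`), helper75 (summation over all heights), on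
the basis of the starting modules `Pool.Agent.Y671`, `Pool.Agent.Y771` (helper671, helper771) and `H986R2.K4`.
-/

set_option autoImplicit false

namespace Pool.Agent.Results.MP_cd509c_nt.DerivativesSpacing

/-- `Δ(i y) = e^(-2πy) ∏_{n ≥ 1} (1 - e^(-2πny))^24`, the modular discriminant on the imaginary axis
(the function of the frozen statement S18517). -/
noncomputable def delta (y : ℝ) : ℝ :=
  Real.exp (-2 * Real.pi * y) * ∏' n : ℕ, (1 - Real.exp (-2 * Real.pi * ((n : ℝ) + 1) * y)) ^ 24

/-- The completed L-function `Λ(s) = ∫_0^∞ Δ(i y) y^(s-1) dy = (2π)^(-s) Γ(s) L(s, Δ)`, an entire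
function with `Λ(12 - s) = Λ(s)`. -/
noncomputable def Lam (s : ℂ) : ℂ := mellin (fun y : ℝ => ((delta y : ℝ) : ℂ)) s

/-- The Ramanujan Xi function `Ξ_Δ(z) = Λ(6 + i z)`. -/
noncomputable def Xi (z : ℂ) : ℂ := Lam (6 + Complex.I * z)

/-- The zeros of the `n`-th derivative of `Ξ_Δ` with real part in `(0, T]`. -/
def Zer (n : ℕ) (T : ℝ) : Set ℂ := {z | iteratedDeriv n Xi z = 0 ∧ 0 < z.re ∧ z.re ≤ T}

/-- The zero `z` of the `n`-th derivative is followed at the expected distance `(π + O(ε)) / log (Re z)`: for some
`g > 0` with `|g log (Re z) - π| ≤ ε` the point `z + g` is a simple zero of the `n`-th derivative, and `z` and `z + g` are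
the only zeros of the `n`-th derivative, real or not, with real part in `[Re z, Re z + g]`. -/
def Followed (n : ℕ) (ε : ℝ) (z : ℂ) : Prop :=
  ∃ g : ℝ, 0 < g ∧ |g * Real.log z.re - Real.pi| ≤ ε ∧ iteratedDeriv n Xi (z + g) = 0 ∧
    iteratedDeriv (n + 1) Xi (z + g) ≠ 0 ∧
    ∀ w : ℂ, iteratedDeriv n Xi w = 0 → z.re ≤ w.re → w.re ≤ z.re + g → w = z ∨ w = z + g

/-- The exceptional zeros of the `n`-th derivative: not real, or multiple, or of real part at least `exp (δ (n + 1))`
and not followed at the expected distance. -/
def Exc (ε δ : ℝ) (n : ℕ) (T : ℝ) : Set ℂ :=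
  {z | z ∈ Zer n T ∧ (z.im ≠ 0 ∨ iteratedDeriv (n + 1) Xi z = 0 ∨
    (Real.exp (δ * (n + 1)) ≤ z.re ∧ ¬ Followed n ε z))}

/-- The number of points of `A`, each counted with its multiplicity as a zero of the `n`-th derivative of `Ξ_Δ`. -/
noncomputable def num (n : ℕ) (A : Set ℂ) : ℕ := ∑ᶠ z ∈ A, analyticOrderNatAt (iteratedDeriv n Xi) z

/-- For all `ε, δ > 0` there are `c, C > 0` such that for all `n ≥ 0` and all `T` at most the proportion `C exp (-c n)` of
the zeros of the `n`-th derivative of the Ramanujan Xi function with real part in `(0, T]`, counted with multiplicity, is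
exceptional; and for `T ≥ 2` the number of the exceptional zeros is at most `C exp (-c n) T log T`. -/
theorem result :
    (∀ (n : ℕ) (T : ℝ), (Zer n T).Finite) ∧
    ∀ ε δ : ℝ, 0 < ε → 0 < δ → ∃ c C : ℝ, 0 < c ∧ 0 < C ∧
      (∀ (n : ℕ) (T : ℝ), (num n (Exc ε δ n T) : ℝ) ≤ C * Real.exp (-(c * n)) * num n (Zer n T)) ∧
      (∀ (n : ℕ) (T : ℝ), 2 ≤ T → (num n (Exc ε δ n T) : ℝ) ≤ C * Real.exp (-(c * n)) * T * Real.log T) :=
  Pool.Agent.P8H15.DS.spacing (N := 1) (k := 12) (by norm_num) Pool.Agent.Y771.NF.newf_delta Xi fun z => by
    rw [Pool.Agent.Y771.NF.Lam_delta]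
    have h : (((12 : ℕ) : ℂ)) / 2 = 6 := by norm_num
    rw [h]
    rfl

end Pool.Agent.Results.MP_cd509c_nt.DerivativesSpacing
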