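import Pool.Agent.P8H15.JA.Fin
import Pool.Agent.P8H15.JA.Delta

/-!
# The Jensen polynomials of the Ramanujan Xi function at the points of the real line

The Ramanujan Xi function is `Ξ(z) = Ξ_Δ(z) = Λ(6 + i z)`, `Λ(s) = (2π)^(-s) Γ(s) L(s, Δ)`. Its Jensen polynomial of
degree `d` and shift `k` at the real point `t` is `∑_{j ≤ d} binom(d, j) Ξ^(k+j)(t) X^j`. All zeros of `Ξ` are real if and
only if all these polynomials are hyperbolic (Jensen, Polya). We prove unconditionally, with constants `c, C, K > 0`: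

* for every `n` the set of the `t` in `[0, T]` such that the Jensen polynomial at `t` fails to be hyperbolic for one of
  the shifts `k ≥ n` and one of the degrees `d ≤ exp (c k)` has measure at most `C T exp (-c n)`, for all `T ≥ 0`;
* the Jensen polynomial at `t` is hyperbolic whenever `k ≥ K log (2 + d + |t|)`.

Proof (modules `Pool.Agent.P8H15.JA`): the Jensen polynomial at `t` is hyperbolic if every non-real zero `w` of `Ξ^(k)`
satisfies `|w - t|² > d (Im w)²` (a sector theorem for the Jensen polynomials of real polynomials, starting modules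
`Pool.Agent.H24R2.JP`). A non-real zero `w` of `Ξ^(k)` is controlled by a zero `z` of `Ξ` with `|Im w| ≤ |Im z|` and
`|Re w - Re z| ≤ k |Im z|` (circles of Jensen). So the measure of the exceptional `t` is bounded by two sums: the number
of the non-real zeros of `Ξ^(k)` up to height `2 T`, which is at most `C exp (-c k) T log T`, times `exp (c k) k / log T`,
and the sum of the `|Im z|` over the zeros with `|Im z| ≥ k / log T`, which is small by the density theorem
(starting modules `Pool.Agent.Y771.NF`).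
-/

set_option autoImplicit false

namespace Pool.Agent.Results.MP_cd509c_nt.JensenAlmostAll

open MeasureTheory

/-- `Δ(i y) = e^(-2πy) ∏_{n ≥ 1} (1 - e^(-2πny))^24`, the modular discriminant on the imaginary axis
(the function of the frozen statement S18517). -/
noncomputable def delta (y : ℝ) : ℝ :=
  Real.exp (-2 * Real.pi * y) * ∏' n : ℕ, (1 - Real.exp (-2 * Real.pi * ((n : ℝ) + 1) * y)) ^ 24

/-- The completed L-function `Λ(s) = ∫_0^∞ Δ(i y) y^(s-1) dy = (2π)^(-s) Γ(s) L(s, Δ)`, an entire
function with `Λ(12 - s) = Λ(s)`. -/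
noncomputable def Lam (s : ℂ) : ℂ := mellin (fun y : ℝ => ((delta y : ℝ) : ℂ)) s

/-- The Ramanujan Xi function `Ξ_Δ(z) = Λ(6 + i z)`. -/
noncomputable def Xi (z : ℂ) : ℂ := Lam (6 + Complex.I * z)

/-- The value at `z` of the Jensen polynomial of degree `d` and shift `k` at the real point `t`. -/
noncomputable def jensen (d k : ℕ) (t : ℝ) (z : ℂ) : ℂ :=
  ∑ j ∈ Finset.range (d + 1), (d.choose j : ℂ) * iteratedDeriv (k + j) Xi t * z ^ j

/-- The Jensen polynomial of degree `d` and shift `k` at `t` is zero or has only real zeros. -/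
def Hyperbolic (d k : ℕ) (t : ℝ) : Prop :=
  (∃ z, jensen d k t z ≠ 0) → ∀ z, jensen d k t z = 0 → z.im = 0

/-- (1) All zeros of `Ξ_Δ` are real if and only if all Jensen polynomials at all real points are hyperbolic. (2) There are
`c, C > 0` such that for all `n` and all `T ≥ 0` the set of the `t` in `[0, T]` at which the Jensen polynomial of some
shift `k ≥ n` and some degree `d ≤ exp (c k)` is not hyperbolic has measure at most `C T exp (-c n)`. (3) There is `K > 0`
such that the Jensen polynomial of degree `d` and shift `k` at `t` is hyperbolic if `k ≥ K log (2 + d + |t|)`. -/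
theorem result :
    ((∀ z : ℂ, Xi z = 0 → z.im = 0) ↔ ∀ (d k : ℕ) (t : ℝ), Hyperbolic d k t) ∧
    (∃ c C : ℝ, 0 < c ∧ 0 < C ∧ ∀ (n : ℕ) (T : ℝ), 0 ≤ T →
      volume {t : ℝ | 0 ≤ t ∧ t ≤ T ∧ ∃ d k : ℕ, n ≤ k ∧ (d : ℝ) ≤ Real.exp (c * k) ∧ ¬ Hyperbolic d k t} ≤
        ENNReal.ofReal (C * T * Real.exp (-(c * n)))) ∧
    (∃ K : ℝ, 0 < K ∧ ∀ (d k : ℕ) (t : ℝ), K * Real.log (2 + d + |t|) ≤ k → Hyperbolic d k t) := by
  have h : Pool.Agent.P8H15.JA.Dat Xi := Pool.Agent.P8H15.JA.dat_delta fun z => rfl
  exact ⟨Pool.Agent.P8H15.JA.crit h, Pool.Agent.P8H15.JA.almost h, Pool.Agent.P8H15.JA.det h⟩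

end Pool.Agent.Results.MP_cd509c_nt.JensenAlmostAll
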