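import Pool.Agent.P8H15.LZ.Newf

/-!
# The Laguerre inequalities of the Ramanujan Xi function hold at almost all heights

The Ramanujan Xi function is `Ξ_Δ(z) = Λ(6 + i z)`, `Λ(s) = (2π)^(-s) Γ(s) L(s, Δ)`. For real `t` let
`|Ξ_Δ(t + i y)|² = ∑ L_n(t) y^(2n)`; up to a positive factor `L_1` is the Laguerre expression `Ξ'² - Ξ Ξ''`, and the `L_n`
are the extended Laguerre expressions of Jensen and Patrick. All zeros of `Ξ_Δ` are real if and only if `L_n(t) ≥ 0` for
all `n` and `t`. We prove unconditionally: there are `c, C > 0` such that for every `n` the set of the `t` in `[0, T]` for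
which one of the inequalities `L_m(t) > 0`, `m ≥ n`, fails has measure at most `C T exp (-c n)`, for all `T ≥ 0`; and
`L_n(t) > 0` whenever `n ≥ K log (2 + |t|)`.

Proof (modules `Pool.Agent.P8H15.LZ`): for `n` up to a small multiple of `log T` one rescales by `n / log T`; the good set
of the theory of projects GD2 and NF of the starting files (`Pool.Agent.Y671`, `Pool.Agent.Y771`; mollified second moments of
`L(s, Δ)` near the critical line at all scales) is the set where the rescaled function has the profile of an exponential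
function, and for such functions the coefficient is positive by a saddle point argument (`Pool.Agent.TH803.LU`); for `n`
comparable to `log T` the same argument is applied at the points where the logarithmic derivative of `Ξ_Δ` at a small
fixed distance from the line is as expected; these are all points up to measure `T^(1-c)`.
-/

set_option autoImplicit false

namespace Pool.Agent.Results.MP_cd509c_nt.LaguerreAlmostAll

open MeasureTheory

/-- `Δ(i y) = e^(-2πy) ∏_{n ≥ 1} (1 - e^(-2πny))^24`, the modular discriminant on the imaginary axis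
(the function of the frozen statement S18517). -/
noncomputable def delta (y : ℝ) : ℝ :=
  Real.exp (-2 * Real.pi * y) * ∏' n : ℕ, (1 - Real.exp (-2 * Real.pi * ((n : ℝ) + 1) * y)) ^ 24

/-- The completed L-function `Λ(s) = ∫_0^∞ Δ(i y) y^(s-1) dy = (2π)^(-s) Γ(s) L(s, Δ)`, an entire
function with `Λ(12 - s) = Λ(s)`. -/
noncomputable def Lam (s : ℂ) : ℂ := mellin (fun y : ℝ => ((delta y : ℝ) : ℂ)) s

/-- The Ramanujan Xi function `Ξ_Δ(z) = Λ(6 + i z)`. -/
noncomputable def Xi (z : ℂ) : ℂ := Lam (6 + Complex.I * z)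

/-- `L_n(t)`, the coefficient of `y^(2n)` in the Taylor series of `|Ξ_Δ(t + i y)|²` at `y = 0`. -/
noncomputable def lag (n : ℕ) (t : ℝ) : ℝ :=
  iteratedDeriv (2 * n) (fun y : ℝ => ‖Xi (t + y * Complex.I)‖ ^ 2) 0 / ((2 * n).factorial : ℝ)

theorem Xi_eq (z : ℂ) : Xi z = Pool.Agent.Y771.NF.Lam (N := 1) (k := 12) Pool.Agent.W97.TW.deltaForm
    (((12 : ℕ) : ℂ) / 2 + Complex.I * z) := by
  rw [Pool.Agent.Y771.NF.Lam_delta]
  have h : (((12 : ℕ) : ℂ)) / 2 = 6 := by norm_num
  rw [h]
  rfl

theorem lag_eq (n : ℕ) (t : ℝ) :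
    lag n t = Pool.Agent.P8H15.LZ.lag (N := 1) (k := 12) Pool.Agent.W97.TW.deltaForm n t := by
  rw [Pool.Agent.P8H15.LZ.lag_eq (by norm_num) Pool.Agent.Y771.NF.newf_delta]
  unfold lag
  simp only [Xi_eq]

/-- (1) All zeros of `Ξ_Δ` are real if and only if `L_n(t) ≥ 0` for all `n` and all real `t`. (2) There are `c, C > 0`
such that for all `n` and all `T ≥ 0` the set of the `t` in `[0, T]` with `L_m(t) ≤ 0` for some `m ≥ n` has measure at most
`C T exp (-c n)`. (3) There is `K > 0` with `L_n(t) > 0` for all `n` and `t` with `n ≥ K log (2 + |t|)`. -/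
theorem result :
    ((∀ z : ℂ, Xi z = 0 → z.im = 0) ↔ ∀ (n : ℕ) (t : ℝ), 0 ≤ lag n t) ∧
    (∃ c C : ℝ, 0 < c ∧ 0 < C ∧ ∀ (n : ℕ) (T : ℝ), 0 ≤ T →
      volume {t : ℝ | 0 ≤ t ∧ t ≤ T ∧ ∃ m : ℕ, n ≤ m ∧ lag m t ≤ 0} ≤
        ENNReal.ofReal (C * T * Real.exp (-(c * n)))) ∧
    (∃ K : ℝ, 0 < K ∧ ∀ (n : ℕ) (t : ℝ), K * Real.log (2 + |t|) ≤ n → 0 < lag n t) := by
  have hf := Pool.Agent.Y771.NF.newf_delta
  refine ⟨?_, ?_, ?_⟩
  · have h := Pool.Agent.P8H15.LZ.crit (N := 1) (k := 12) (by norm_num) hf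
    simp only [Xi_eq, lag_eq]
    exact h
  · simp only [lag_eq]
    exact Pool.Agent.P8H15.LZ.almost (N := 1) (k := 12) (by norm_num) hf
  · obtain ⟨K0, N0, hK0, h⟩ := Pool.Agent.P8H15.LZ.det_pos (N := 1) (k := 12) (by norm_num) hf
    simp only [lag_eq]
    refine ⟨K0 + 2 * N0, by positivity, fun n t hn => h n ?_ t ?_⟩
    · have h1 : (1 : ℝ) / 2 ≤ Real.log (2 + |t|) := by
        have h2 : Real.log 2 ≤ Real.log (2 + |t|) :=
          Real.log_le_log (by norm_num) (by linarith [abs_nonneg t])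
        have h3 := Real.log_two_gt_d9
        linarith
      have h4 : (N0 : ℝ) ≤ n := by
        have h5 : (0 : ℝ) ≤ N0 := Nat.cast_nonneg _
        nlinarith
      exact_mod_cast h4
    · have h0 : (0 : ℝ) ≤ N0 := Nat.cast_nonneg _
      have hl : 0 ≤ Real.log (2 + |t|) := Real.log_nonneg (by linarith [abs_nonneg t])
      have h1 : Real.log (2 + |t|) ≤ n / K0 := by
        rw [le_div_iff₀ (by linarith)]
        nlinarith
      have h2 : 2 + |t| ≤ Real.exp (n / K0) := by
        rw [← Real.log_le_iff_le_exp (by positivity)]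
        exact h1
      linarith

end Pool.Agent.Results.MP_cd509c_nt.LaguerreAlmostAll
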