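import Pool.Agent.P8H74.SD.Delta

/-!
# Differences of vertical shifts of the Ramanujan Xi function

The Ramanujan Xi function is `Ξ(z) = Λ(6 + i z)`, `Λ(s) = (2π)^(-s) Γ(s) L(s, Δ)`. For `δ > 0` and a unimodular `ω` put
`D z = Ξ (z - i δ) - ω Ξ (z + i δ)`. We prove unconditionally: for every `δ > 0` all zeros of all these differences are real
if and only if all zeros of `Ξ` satisfy `|Im z| ≤ δ`; for every `c < 1` the number of their non-real zeros with real part in
`(0, T]` is at most `C T^(1 - c δ) log T`, uniformly in `δ` and `ω`, so that for every fixed `δ` the non-real zeros have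
density zero as soon as `δ log T → ∞`; and the real parts of all non-real zeros of all
differences with shifts at least `δ` form a set of measure at most `C T^(1 - c δ)` in `[0, T]`.

Proof: off an explicit small set of heights near the off-line zeros of `Ξ` and off a band containing the zeros, the two
terms of `D` have different sizes at every non-real point (comparison of the two terms zero by zero in the Hadamard
product, the zeros being grouped with their reflections). This gives the third statement, and it gives horizontal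
segments in every short window of heights on which `D` is compared with `Ξ (z - i δ)` by Rouche's theorem; between two
such segments the number of non-real zeros of `D` is bounded by the number of zeros of `Ξ` with imaginary part larger
than `δ` plus the error at the ends. The density theorem for `L(s, Δ)` (modules `Pool.Agent.Y24.GL`, `Pool.Agent.Y771`)
gives the rest.
-/

set_option autoImplicit false

namespace Pool.Agent.Results.MP_cd509c_nt.ShiftDifferences

open MeasureTheory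

/-- `Δ(i y) = e^(-2πy) ∏_{n ≥ 1} (1 - e^(-2πny))^24`, the modular discriminant on the imaginary axis. -/
noncomputable def delta (y : ℝ) : ℝ :=
  Real.exp (-2 * Real.pi * y) * ∏' n : ℕ, (1 - Real.exp (-2 * Real.pi * ((n : ℝ) + 1) * y)) ^ 24

/-- The completed L-function `Λ(s) = ∫_0^∞ Δ(i y) y^(s-1) dy = (2π)^(-s) Γ(s) L(s, Δ)`. -/
noncomputable def Lam (s : ℂ) : ℂ := mellin (fun y : ℝ => ((delta y : ℝ) : ℂ)) s

/-- The Ramanujan Xi function `Ξ(z) = Λ(6 + i z)`. -/
noncomputable def Xi (z : ℂ) : ℂ := Lam (6 + Complex.I * z)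

/-- The difference `Ξ (z - i δ) - ω Ξ (z + i δ)` of two vertical shifts. -/
noncomputable def D (δ : ℝ) (ω z : ℂ) : ℂ := Xi (z - Complex.I * δ) - ω * Xi (z + Complex.I * δ)

/-- The non-real zeros of `D δ ω` with real part in `(0, T]`. -/
def NonReal (δ : ℝ) (ω : ℂ) (T : ℝ) : Set ℂ := {z | D δ ω z = 0 ∧ z.im ≠ 0 ∧ 0 < z.re ∧ z.re ≤ T}

/-- The number of points of `A`, each counted with its multiplicity as a zero of `D δ ω`. -/
noncomputable def num (δ : ℝ) (ω : ℂ) (A : Set ℂ) : ℕ := ∑ᶠ z ∈ A, analyticOrderNatAt (D δ ω) z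

/-- The real parts in `[0, T]` of the non-real zeros of all differences with shifts at least `δ`. -/
def Bad (δ T : ℝ) : Set ℝ :=
  {x | 0 ≤ x ∧ x ≤ T ∧ ∃ (δ' : ℝ) (ω z : ℂ), δ ≤ δ' ∧ ‖ω‖ = 1 ∧ z.re = x ∧ z.im ≠ 0 ∧ D δ' ω z = 0}

theorem result :
    (∀ δ : ℝ, 0 < δ → ((∀ ω : ℂ, ‖ω‖ = 1 → ∀ z, D δ ω z = 0 → z.im = 0) ↔ ∀ z, Xi z = 0 → |z.im| ≤ δ)) ∧
    ((∀ z, Xi z = 0 → z.im = 0) ↔
      ∀ δ : ℝ, 0 < δ → ∀ ω : ℂ, ‖ω‖ = 1 → ∀ z, D δ ω z = 0 → z.im = 0) ∧
    (∀ c : ℝ, c < 1 → ∃ C : ℝ, 0 < C ∧ ∀ (δ T : ℝ) (ω : ℂ), 0 < δ → 2 ≤ T → ‖ω‖ = 1 →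
      (NonReal δ ω T).Finite ∧ (num δ ω (NonReal δ ω T) : ℝ) ≤ C * T ^ (1 - c * δ) * Real.log T) ∧
    (∀ c : ℝ, c < 1 → ∃ C : ℝ, 0 < C ∧ ∀ δ T : ℝ, 0 < δ → 2 ≤ T →
      volume (Bad δ T) ≤ ENNReal.ofReal (C * T ^ (1 - c * δ))) := by
  obtain ⟨X, v, hX, hv, hG⟩ := Pool.Agent.P8H74.SD.hyp_newf (N := 1) (k := 12) (by norm_num)
    Pool.Agent.Y771.NF.newf_delta Xi (fun z => by
      rw [Pool.Agent.Y771.NF.Lam_delta]
      have h : (((12 : ℕ) : ℂ)) / 2 = 6 := by norm_num
      rw [h]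
      rfl)
  have h1 : ∀ δ : ℝ, 0 < δ →
      ((∀ ω : ℂ, ‖ω‖ = 1 → ∀ z, D δ ω z = 0 → z.im = 0) ↔ ∀ z, Xi z = 0 → |z.im| ≤ δ) :=
    fun δ hδ => Pool.Agent.P8H74.SD.rot_crit hX hv hG hδ
  refine ⟨h1, ⟨fun h δ hδ => (h1 δ hδ).2 fun z hz => ?_, fun h z hz => ?_⟩, fun c hc => ?_, fun c hc => ?_⟩
  · rw [h z hz, abs_zero]
    exact hδ.le
  · by_contra h0
    have h2 : 0 < |z.im| := abs_pos.2 h0
    have h3 := (h1 (|z.im| / 2) (by linarith)).1 (h _ (by linarith)) z hz
    linarith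
  · exact Pool.Agent.P8H74.SD.rot_count hX hv hG hc
  · exact Pool.Agent.P8H74.SD.rot_heights hX hv hG hc

end Pool.Agent.Results.MP_cd509c_nt.ShiftDifferences
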